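import Mathlib

set_option autoImplicit false

open Set

namespace Pool.Agent.Results.MP_f06e6c_an.Minimal

/-- The map `f₀` of the Alsedà–Misiurewicz system with parameters `(x₀, y₀)`:
`f₀ x = a₀ x` for `x ≤ x₀` and `f₀ x = a₁ (x - 1) + 1` for `x > x₀`,
where `a₀ = y₀ / x₀` and `a₁ = (1 - y₀) / (1 - x₀)`. -/
noncomputable def f0 (x0 y0 x : ℝ) : ℝ :=
  if x ≤ x0 then (y0 / x0) * x else ((1 - y0) / (1 - x0)) * (x - 1) + 1

/-- The map `f₁ x = 1 - f₀ (1 - x)`. -/
noncomputable def f1 (x0 y0 x : ℝ) : ℝ := 1 - f0 x0 y0 (1 - x)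

/-- The pair `(f₀, f₁)` indexed by `Fin 2`. -/
noncomputable def f (x0 y0 : ℝ) : Fin 2 → ℝ → ℝ := ![f0 x0 y0, f1 x0 y0]

/-- The orbit of `x`: all points `f_{iₙ} ∘ ⋯ ∘ f_{i₁} (x)` with `n ≥ 0`, `i₁, …, iₙ ∈ {0, 1}`. -/
def orbit (x0 y0 x : ℝ) : Set ℝ :=
  {y | ∃ w : List (Fin 2), y = w.foldl (fun t i => f x0 y0 i t) x}

/-- The inverse of `f₀`. -/
noncomputable def g0 (x0 y0 t : ℝ) : ℝ :=
  if t ≤ y0 then (x0 / y0) * t else ((1 - x0) / (1 - y0)) * (t - 1) + 1

theorem f0_strictMono {x0 y0 : ℝ} (h2 : x0 < 1) (h3 : 0 < y0) (h4 : y0 < x0) :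
    StrictMono (f0 x0 y0) := by
  have hx0 : 0 < x0 := h3.trans h4
  have ha0 : 0 < y0 / x0 := div_pos h3 hx0
  have ha1 : 0 < (1 - y0) / (1 - x0) := div_pos (by linarith) (by linarith)
  have e0 : y0 / x0 * x0 = y0 := div_mul_cancel₀ _ hx0.ne'
  have e1 : (1 - y0) / (1 - x0) * (1 - x0) = 1 - y0 := div_mul_cancel₀ _ (by linarith)
  intro s t hst
  unfold f0
  split_ifs with hs ht ht
  · nlinarith
  · push Not at ht
    nlinarith [mul_le_mul_of_nonneg_left hs ha0.le, mul_lt_mul_of_pos_left ht ha1]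
  · exfalso; linarith
  · nlinarith

theorem f0_g0 {x0 y0 : ℝ} (h2 : x0 < 1) (h3 : 0 < y0) (h4 : y0 < x0) (t : ℝ) :
    f0 x0 y0 (g0 x0 y0 t) = t := by
  have hx0 : 0 < x0 := h3.trans h4
  have hb0 : 0 < x0 / y0 := div_pos hx0 h3
  have hb1 : 0 < (1 - x0) / (1 - y0) := div_pos (by linarith) (by linarith)
  have e0 : x0 / y0 * y0 = x0 := div_mul_cancel₀ _ h3.ne'
  have e1 : (1 - x0) / (1 - y0) * (1 - y0) = 1 - x0 := div_mul_cancel₀ _ (by linarith)
  have n1 : (1 - x0) ≠ 0 := by linarith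
  have n2 : (1 - y0) ≠ 0 := by linarith
  unfold g0
  split_ifs with ht
  · have : x0 / y0 * t ≤ x0 := by nlinarith [mul_le_mul_of_nonneg_left ht hb0.le]
    unfold f0
    rw [if_pos this]
    field_simp
  · push Not at ht
    have : ¬ ((1 - x0) / (1 - y0) * (t - 1) + 1 ≤ x0) := by
      nlinarith [mul_lt_mul_of_pos_left ht hb1]
    unfold f0
    rw [if_neg this]
    field_simp
    ring

/-- The longest-gap argument, for an arbitrary forward invariant set meeting `(0, 1)`. -/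
theorem no_gap {x0 y0 : ℝ} (h2 : x0 < 1) (h3 : 1 / 2 ≤ y0) (h4 : y0 < x0) (O : Set ℝ)
    (hO0 : ∀ t ∈ O, f0 x0 y0 t ∈ O) (hO1 : ∀ t ∈ O, f1 x0 y0 t ∈ O)
    {x : ℝ} (hxO : x ∈ O) (hx : x ∈ Ioo (0 : ℝ) 1) {u v : ℝ} (hu : 0 ≤ u) (huv : u < v)
    (hv : v ≤ 1) : ∃ t ∈ O, u < t ∧ t < v := by
  by_contra hcon
  have hy0 : 0 < y0 := by linarith
  have hx0 : 0 < x0 := hy0.trans h4
  have hmono := f0_strictMono h2 hy0 h4
  have hinv := f0_g0 h2 hy0 h4
  set b0 : ℝ := x0 / y0 with hb0def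
  set b1 : ℝ := (1 - x0) / (1 - y0) with hb1def
  have e0 : b0 * y0 = x0 := div_mul_cancel₀ _ hy0.ne'
  have e1 : b1 * (1 - y0) = 1 - x0 := div_mul_cancel₀ _ (by linarith)
  have hb0 : 1 < b0 := by rw [hb0def, lt_div_iff₀ hy0]; linarith
  have hb1 : 0 < b1 := div_pos (by linarith) (by linarith)
  have hb1' : b1 < 1 := by rw [hb1def, div_lt_iff₀ (by linarith)]; linarith
  have gl : ∀ t, t ≤ y0 → g0 x0 y0 t = b0 * t := fun t ht => by unfold g0; rw [if_pos ht]
  have gr : ∀ t, y0 < t → g0 x0 y0 t = b1 * (t - 1) + 1 := fun t ht => by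
    unfold g0; rw [if_neg (not_le.mpr ht)]
  -- the set of gaps
  set M : Set (ℝ × ℝ) := {p | 0 ≤ p.1 ∧ p.1 ≤ p.2 ∧ p.2 ≤ 1 ∧ ∀ t ∈ O, t ≤ p.1 ∨ p.2 ≤ t} with hM
  have hMclosed : IsClosed M := by
    have : M = {p : ℝ × ℝ | 0 ≤ p.1} ∩ ({p | p.1 ≤ p.2} ∩ ({p | p.2 ≤ 1} ∩
        ⋂ t ∈ O, ({p | t ≤ p.1} ∪ {p | p.2 ≤ t}))) := by
      ext p; simp [hM]
    rw [this]
    refine (isClosed_le continuous_const continuous_fst).inter
      ((isClosed_le continuous_fst continuous_snd).inter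
        ((isClosed_le continuous_snd continuous_const).inter ?_))
    exact isClosed_biInter fun t _ => (isClosed_le continuous_const continuous_fst).union
      (isClosed_le continuous_snd continuous_const)
  have hMcomp : IsCompact M := by
    refine ((isCompact_Icc (a := (0 : ℝ)) (b := 1)).prod
      (isCompact_Icc (a := (0 : ℝ)) (b := 1))).of_isClosed_subset hMclosed ?_
    rintro p ⟨a, b, c, -⟩
    exact ⟨⟨a, b.trans c⟩, ⟨a.trans b, c⟩⟩
  have huvM : (u, v) ∈ M := by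
    refine ⟨hu, huv.le, hv, fun t ht => ?_⟩
    by_contra hh
    push Not at hh
    exact hcon ⟨t, ht, hh.1, hh.2⟩
  -- monotonicity and range of the inverse branch
  have gmono : Monotone (g0 x0 y0) := by
    intro s t hst
    by_contra hh
    push Not at hh
    have := hmono hh
    rw [hinv, hinv] at this
    linarith
  have g_zero : g0 x0 y0 0 = 0 := by rw [gl 0 hy0.le]; ring
  have g_one : g0 x0 y0 1 = 1 := by rw [gr 1 (by linarith)]; ring
  have hG0 : ∀ p ∈ M, (g0 x0 y0 p.1, g0 x0 y0 p.2) ∈ M := by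
    rintro p ⟨a, b, c, d⟩
    refine ⟨by simpa [g_zero] using gmono a, gmono b, by simpa [g_one] using gmono c, ?_⟩
    intro t ht
    rcases d _ (hO0 t ht) with h | h
    · left
      by_contra hh
      push Not at hh
      have := hmono hh
      rw [hinv] at this
      linarith
    · right
      by_contra hh
      push Not at hh
      have := hmono hh
      rw [hinv] at this
      linarith
  have hG1 : ∀ p ∈ M, (1 - g0 x0 y0 (1 - p.1), 1 - g0 x0 y0 (1 - p.2)) ∈ M := by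
    rintro p ⟨a, b, c, d⟩
    have a' := gmono (show 1 - p.1 ≤ 1 by linarith)
    have b' := gmono (show 1 - p.2 ≤ 1 - p.1 by linarith)
    have c' := gmono (show 0 ≤ 1 - p.2 by linarith)
    rw [g_one] at a'
    rw [g_zero] at c'
    refine ⟨by simp only; linarith, by simp only; linarith, by simp only; linarith, ?_⟩
    intro t ht
    rcases d _ (hO1 t ht) with h | h
    · left
      by_contra hh
      push Not at hh
      have := hmono (show 1 - t < g0 x0 y0 (1 - p.1) by simp only at hh; linarith)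
      rw [hinv] at this
      unfold f1 at h
      linarith
    · right
      by_contra hh
      push Not at hh
      have := hmono (show g0 x0 y0 (1 - p.2) < 1 - t by simp only at hh; linarith)
      rw [hinv] at this
      unfold f1 at h
      linarith
  -- a longest gap
  obtain ⟨q, hqM, hq⟩ := hMcomp.exists_isMaxOn ⟨_, huvM⟩
    (f := fun p : ℝ × ℝ => p.2 - p.1) (by fun_prop)
  set L : ℝ := q.2 - q.1 with hL
  have hmax : ∀ p ∈ M, p.2 - p.1 ≤ L := fun p hp => hq hp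
  have hLpos : 0 < L := lt_of_lt_of_le (by simp only; linarith) (hmax _ huvM)
  have hM'comp : IsCompact (M ∩ {p : ℝ × ℝ | p.2 - p.1 = L}) :=
    hMcomp.inter_right (isClosed_eq (by fun_prop) continuous_const)
  -- the rightmost longest gap
  obtain ⟨p, ⟨hpM, hpL⟩, hp⟩ := hM'comp.exists_isMaxOn ⟨q, hqM, rfl⟩
    (f := fun p : ℝ × ℝ => p.2) (by fun_prop)
  have hp' : ∀ r ∈ M, r.2 - r.1 = L → r.2 ≤ p.2 := fun r hr hrL => hp ⟨hr, hrL⟩
  have k0 := hmax _ (hG0 p hpM)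
  have k1 := hmax _ (hG1 p hpM)
  have k2 := hp' _ (hG0 p hpM)
  obtain ⟨a, b, c, d⟩ := hpM
  obtain ⟨s, t⟩ := p
  simp only [mem_ofPred_eq] at hpL k0 k1 k2 a b c d
  have hL1 : L < 1 := by
    rcases d x hxO with h | h
    · linarith [hx.1]
    · linarith [hx.2]
  by_cases c1 : t ≤ y0
  · rw [gl t c1, gl s (by linarith)] at k0
    nlinarith
  by_cases c2 : 1 - s ≤ y0
  · rw [gl _ c2, gl (1 - t) (by linarith)] at k1
    nlinarith
  push Not at c1 c2
  rw [gr t c1, gl s (by linarith)] at k0 k2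
  rw [gr _ c2, gl (1 - t) (by linarith)] at k1
  -- the two preimages have total length at least `2 L`
  have key : b0 + b1 ≤ 2 := by
    have hy1 : 0 < 1 - y0 := by linarith
    have : (b0 + b1 - 2) * (y0 * (1 - y0)) = (x0 - y0) * (1 - 2 * y0) := by
      have : (b0 + b1 - 2) * (y0 * (1 - y0))
          = (b0 * y0) * (1 - y0) + (b1 * (1 - y0)) * y0 - 2 * (y0 * (1 - y0)) := by ring
      rw [this, e0, e1]; ring
    by_contra hh
    push Not at hh
    have h5 : 0 < (b0 + b1 - 2) * (y0 * (1 - y0)) := by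
      apply mul_pos (by linarith) (mul_pos hy0 hy1)
    have h6 : (x0 - y0) * (1 - 2 * y0) ≤ 0 :=
      mul_nonpos_of_nonneg_of_nonpos (by linarith) (by linarith)
    linarith
  have hsum : 2 * L ≤ (b1 * (t - 1) + 1 - b0 * s) +
      ((1 - b0 * (1 - t)) - (1 - (b1 * (1 - s - 1) + 1))) := by
    have : (b1 * (t - 1) + 1 - b0 * s) + ((1 - b0 * (1 - t)) - (1 - (b1 * (1 - s - 1) + 1)))
        - 2 * L = (2 - (b0 + b1)) * (1 - L) := by rw [← hpL]; ring
    have h7 : 0 ≤ (2 - (b0 + b1)) * (1 - L) := mul_nonneg (by linarith) (by linarith)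
    linarith
  have k3 := k2 (by linarith)
  -- hence `t = 1`
  have ht1 : t = 1 := by nlinarith
  subst ht1
  have hs0 : 0 < s := by linarith
  nlinarith

theorem result (x0 y0 : ℝ) (h1 : 1 / 2 < x0) (h2 : x0 < 1) (h3 : 1 / 2 ≤ y0) (h4 : y0 < x0)
    (x : ℝ) (hx : x ∈ Ioo (0 : ℝ) 1) :
    Ioo (0 : ℝ) 1 ⊆ closure (orbit x0 y0 x) := by
  have _ := h1
  intro z hz
  rw [Metric.mem_closure_iff]
  intro ε hε
  have hO : ∀ i, ∀ t ∈ orbit x0 y0 x, f x0 y0 i t ∈ orbit x0 y0 x := by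
    rintro i t ⟨w, rfl⟩
    exact ⟨w ++ [i], by simp⟩
  obtain ⟨t, ht, h5, h6⟩ := no_gap h2 h3 h4 (orbit x0 y0 x) (hO 0) (hO 1) ⟨[], rfl⟩ hx
    (u := z) (v := min 1 (z + ε)) hz.1.le (lt_min hz.2 (by linarith)) (min_le_left _ _)
  refine ⟨t, ht, ?_⟩
  rw [Real.dist_eq, abs_lt]
  have := min_le_right 1 (z + ε)
  constructor <;> linarith

end Pool.Agent.Results.MP_f06e6c_an.Minimal
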